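import Mathlib
import Pool.Agent.H68R2.BP.Props2
import Pool.Agent.H495R2.KZ.WLim

/-!
BP project (helper68), task G_rc: local result, row-column bounded case.
-/

open scoped ComplexOrder InnerProductSpace ComplexConjugate Topology
open Finset Filter

noncomputable section

namespace H68R2.BP

open H759R2.Kad H744R2.KZ

namespace GrcAux

theorem one (h0 : P_minrep) (h1 : S_rc) (h2 : E_hb) (h3 : E_ext) (h4 : G_std) (h5 : G_supp)
    (H : Type) [NormedAddCommGroup H] [InnerProductSpace ℂ H] [CompleteSpace H]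
    (M : VonNeumannAlgebra H) (z : H →L[ℂ] H) (hz : IsCP M z) (hR : RCp M z) (k : ℕ)
    (Ω₀ : HH (Fin k) H) (hΩ : dg k z Ω₀ = Ω₀) :
    ∃ p ∈ M, IsPr p ∧ z * p = p ∧ dg k p Ω₀ = Ω₀ ∧ ∃ E : (H →L[ℂ] H) →ₗ[ℂ] (H →L[ℂ] H),
      (∀ x, ‖E x‖ ≤ ‖x‖) ∧ (∀ x, E x ∈ Cnr M p) ∧ ∀ a ∈ Cnr M p, E a = a := by
  by_cases hΩ₀ : Ω₀ = 0
  · refine ⟨0, M.toStarSubalgebra.zero_mem, ⟨by simp, by simp⟩, by simp, ?_, 0, ?_, ?_, ?_⟩
    · rw [hΩ₀, map_zero]
    · intro x; simp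
    · intro x
      exact ⟨M.toStarSubalgebra.zero_mem, by simp, by simp⟩
    · intro a ha
      have := ha.2.1
      rw [zero_mul] at this
      rw [← this, map_zero]
  obtain ⟨p, hpM, hpPr, hzp, hpΩ₀, hsep₀⟩ := h5 H M z hz k Ω₀ hΩ
  refine ⟨p, hpM, hpPr, hzp, hpΩ₀, ?_⟩
  have hpp : p * p = p := hpPr.2
  have hn : ‖Ω₀‖ ≠ 0 := norm_ne_zero_iff.mpr hΩ₀
  obtain ⟨Ω, hΩdef⟩ : ∃ Ω : HH (Fin k) H, Ω = ((‖Ω₀‖⁻¹ : ℝ) : ℂ) • Ω₀ := ⟨_, rfl⟩
  have hdgΩ : ∀ a : H →L[ℂ] H, dg k a Ω = ((‖Ω₀‖⁻¹ : ℝ) : ℂ) • dg k a Ω₀ := by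
    intro a
    rw [hΩdef, map_smul]
  have hcn : ‖((‖Ω₀‖⁻¹ : ℝ) : ℂ)‖ = ‖Ω₀‖⁻¹ := by
    rw [Complex.norm_real, Real.norm_of_nonneg (by positivity)]
  have hnormdg : ∀ a : H →L[ℂ] H, ‖dg k a Ω‖ = ‖Ω₀‖⁻¹ * ‖dg k a Ω₀‖ := by
    intro a
    rw [hdgΩ, norm_smul, hcn]
  have hΩ1 : ‖Ω‖ = 1 := by
    rw [hΩdef, norm_smul, hcn]
    exact inv_mul_cancel₀ hn
  have hpΩ : dg k p Ω = Ω := by
    rw [hdgΩ, hpΩ₀, ← hΩdef]
  have hsep : ∀ a ∈ Cnr M p, dg k a Ω = 0 → a = 0 := by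
    intro a ha h
    apply hsep₀ a ha
    have h5 : ‖dg k a Ω‖ = 0 := by rw [h, norm_zero]
    rw [hnormdg] at h5
    have h6 := (mul_eq_zero.mp h5).resolve_left (inv_ne_zero hn)
    exact norm_eq_zero.mp h6
  obtain ⟨κ, b, S, _, _, _, l₀, r₀, th, hmin⟩ := h0 H
  obtain ⟨L, _, _, _, l, r, w, hstd, hlw⟩ := h4 H M p hpM hpPr k Ω hpΩ hsep
  have hpC : p ∈ Cnr M p := ⟨hpM, hpp, hpp⟩
  have hw1 : ‖w‖ = 1 := by
    have h5 := hlw p hpC
    rw [hstd.l_p, hpΩ, hΩ1] at h5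
    simpa using h5
  have hS := h1 H S κ b l₀ r₀ th hmin M z p hz hR hpM hpPr hzp L l r hstd.bi
  have hsmul : ∀ a ∈ Cnr M p, ∀ c : ℂ, c • a ∈ Cnr M p := by
    intro a ha c
    refine ⟨?_, ?_, ?_⟩
    · exact M.toStarSubalgebra.smul_mem ha.1 c
    · rw [mul_smul_comm, ha.2.1]
    · rw [smul_mul_assoc, ha.2.2]
  have hqsmul : ∀ (c : ℂ) (a : H →L[ℂ] H),
      (⟪w, l (c • a) (r (c • a) w)⟫_ℂ).re = ‖c‖ ^ 2 * (⟪w, l a (r a w)⟫_ℂ).re := by
    intro c a
    rw [hstd.bi.l_smul, hstd.bi.r_smul]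
    simp only [ContinuousLinearMap.smul_apply, map_smul, inner_smul_right]
    rw [← mul_assoc, mul_comm ((starRingEnd ℂ) c) c, Complex.mul_conj, Complex.re_ofReal_mul,
      Complex.normSq_eq_norm_sq]
  have hqp : (⟪w, l p (r p w)⟫_ℂ).re = 1 := by
    rw [hstd.l_p, hstd.r_p]
    simp only [ContinuousLinearMap.one_apply]
    rw [inner_self_eq_norm_sq_to_K, hw1]
    simp
  obtain ⟨F, F1, F2, F3, F4, F5, _, F7, F8⟩ := h2 H S κ b l₀ r₀ th hmin (Cnr M p) p
    (fun x => (⟪w, l x (r x w)⟫_ℂ).re) hpPr hpC hsmul hqsmul hqp (by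
      intro ι _ x hx
      have h5 := hS ι x hx
      refine le_trans ?_ h5
      have h7 : ‖⟪w, TT l r x w⟫_ℂ‖ ≤ ‖TT l r x‖ := by
        refine (norm_inner_le_norm _ _).trans ?_
        rw [hw1, one_mul]
        have := (TT l r x).le_opNorm w
        rwa [hw1, mul_one] at this
      refine le_trans ?_ h7
      refine le_trans ?_ (Complex.re_le_norm _)
      apply le_of_eq
      have h6 : TT l r x w = ∑ i, l (x i) (r (x i) w) := by
        unfold TT
        rw [ContinuousLinearMap.sum_apply]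
        rfl
      rw [h6, inner_sum, Complex.re_sum])
  obtain ⟨E, E1, E2, E3⟩ := h3 H L M p hpM hpPr l r w hstd hw1 F F1 F2 F3 F4 F5 F7 F8
  exact ⟨E, E1, E2, E3⟩

/-- The version for finite subsets, with the compression built in. -/
theorem fin (h0 : P_minrep) (h1 : S_rc) (h2 : E_hb) (h3 : E_ext) (h4 : G_std) (h5 : G_supp)
    (H : Type) [NormedAddCommGroup H] [InnerProductSpace ℂ H] [CompleteSpace H]
    (M : VonNeumannAlgebra H) (z : H →L[ℂ] H) (hz : IsCP M z) (hR : RCp M z) (F : Finset H) :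
    ∃ p ∈ M, IsPr p ∧ z * p = p ∧ (∀ ξ ∈ F, p (z ξ) = z ξ) ∧
      ∃ E : (H →L[ℂ] H) →ₗ[ℂ] (H →L[ℂ] H),
      (∀ x, ‖E x‖ ≤ ‖x‖) ∧ (∀ x, E x ∈ Cnr M p) ∧ ∀ a ∈ M, E a = p * a * p := by
  have hzz : z * z = z := hz.1.2
  obtain ⟨p, hpM, hpPr, hzp, hpΩ, E, E1, E2, E3⟩ := one h0 h1 h2 h3 h4 h5 H M z hz hR F.card
    (WithLp.toLp 2 fun i => z ((F.equivFin.symm i : F) : H)) (by
      ext i
      rw [dg_apply]
      change z (z _) = z _
      rw [← ContinuousLinearMap.mul_apply, hzz])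
  have hpp : p * p = p := hpPr.2
  have hps : star p = p := hpPr.1
  refine ⟨p, hpM, hpPr, hzp, ?_, E.comp (LinearMap.mulLeft ℂ p ∘ₗ LinearMap.mulRight ℂ p),
    ?_, ?_, ?_⟩
  · intro ξ hξ
    have h6 := congrArg (fun v : HH (Fin F.card) H => v (F.equivFin ⟨ξ, hξ⟩)) hpΩ
    simp only [dg_apply] at h6
    simpa using h6
  · intro x
    have hp1 : ‖p‖ ≤ 1 := by
      have h7 : ‖p‖ * ‖p‖ = ‖p‖ := by
        rw [← CStarRing.norm_star_mul_self (x := p), hps, hpp]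
      by_contra hcon
      push_neg at hcon
      nlinarith
    change ‖E (p * (x * p))‖ ≤ ‖x‖
    refine (E1 _).trans ?_
    calc ‖p * (x * p)‖ ≤ ‖p‖ * (‖x‖ * ‖p‖) :=
          (norm_mul_le _ _).trans (mul_le_mul_of_nonneg_left (norm_mul_le _ _) (norm_nonneg _))
      _ ≤ 1 * (‖x‖ * 1) := by gcongr
      _ = ‖x‖ := by ring
  · intro x
    exact E2 _
  · intro a ha
    change E (p * (a * p)) = _
    rw [mul_assoc]
    apply E3
    refine ⟨?_, ?_, ?_⟩
    · exact M.toStarSubalgebra.mul_mem hpM (M.toStarSubalgebra.mul_mem ha hpM)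
    · rw [← mul_assoc, hpp]
    · rw [mul_assoc, mul_assoc, hpp]

end GrcAux

open GrcAux in
theorem prove_G_rc (h0 : P_minrep) (h1 : S_rc) (h2 : E_hb) (h3 : E_ext) (h4 : G_std)
    (h5 : G_supp) : G_rc := by
  classical
  intro H _ _ _ M z hz hR
  have hzz : z * z = z := hz.1.2
  have hzs : star z = z := hz.1.1
  have hzM : z ∈ M := hz.2.1
  choose p hpM hpPr hzp hpF E E1 E2 E3 using fin h0 h1 h2 h3 h4 h5 H M z hz hR
  let 𝒰 : Ultrafilter (Finset H) := Ultrafilter.of atTop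
  have h𝒰 : (𝒰 : Filter (Finset H)) ≤ atTop := Ultrafilter.of_le _
  have hlim := fun x : H →L[ℂ] H =>
    prove_W_lim.{0} H (Finset H) 𝒰 (fun F => E F x) ‖x‖ (fun F => E1 F x)
  choose T T1 T2 using hlim
  have ext2 : ∀ a b : H →L[ℂ] H, (∀ u v, ⟪u, a v⟫_ℂ = ⟪u, b v⟫_ℂ) → a = b := by
    intro a b h
    ext v
    exact ext_inner_left ℂ fun u => h u v
  refine ⟨{ toFun := T, map_add' := ?_, map_smul' := ?_ }, T1, ?_, ?_⟩
  · intro x y
    apply ext2
    intro u v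
    refine tendsto_nhds_unique (T2 (x + y) u v) ?_
    have h6 := (T2 x u v).add (T2 y u v)
    simp only [map_add, ContinuousLinearMap.add_apply, inner_add_right]
    exact h6
  · intro c x
    apply ext2
    intro u v
    refine tendsto_nhds_unique (T2 (c • x) u v) ?_
    have h6 := (T2 x u v).const_mul c
    simp only [map_smul, RingHom.id_apply, ContinuousLinearMap.smul_apply, inner_smul_right]
    exact h6
  · intro x
    change T x ∈ M ∧ z * T x = T x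
    constructor
    · rw [← VonNeumannAlgebra.commutant_commutant M, VonNeumannAlgebra.mem_commutant_iff]
      intro g hg
      rw [VonNeumannAlgebra.mem_commutant_iff] at hg
      apply ext2
      intro u v
      have h6 : Tendsto (fun F => ⟪star g u, E F x v⟫_ℂ) 𝒰 (𝓝 ⟪star g u, T x v⟫_ℂ) :=
        T2 x _ v
      have h7 : Tendsto (fun F => ⟪u, E F x (g v)⟫_ℂ) 𝒰 (𝓝 ⟪u, T x (g v)⟫_ℂ) :=
        T2 x u (g v)
      have h8 : (fun F => ⟪star g u, E F x v⟫_ℂ) = fun F => ⟪u, E F x (g v)⟫_ℂ := by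
        funext F
        rw [ContinuousLinearMap.star_eq_adjoint, ContinuousLinearMap.adjoint_inner_left,
          ← ContinuousLinearMap.mul_apply, ← ContinuousLinearMap.mul_apply,
          hg _ (E2 F x).1]
      rw [h8] at h6
      have h9 := tendsto_nhds_unique h6 h7
      rw [ContinuousLinearMap.star_eq_adjoint, ContinuousLinearMap.adjoint_inner_left] at h9
      exact h9
    · apply ext2
      intro u v
      have h6 := T2 x (z u) v
      have h8 : (fun F => ⟪z u, E F x v⟫_ℂ) = fun F => ⟪u, E F x v⟫_ℂ := by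
        funext F
        rw [← hzs, ContinuousLinearMap.star_eq_adjoint, ContinuousLinearMap.adjoint_inner_left,
          ← ContinuousLinearMap.mul_apply]
        congr 3
        rw [← (E2 F x).2.1, ← mul_assoc, hzp]
      rw [h8] at h6
      have h9 := tendsto_nhds_unique h6 (T2 x u v)
      rw [← h9]
      nth_rewrite 2 [← hzs]
      rw [ContinuousLinearMap.star_eq_adjoint, ContinuousLinearMap.adjoint_inner_left]
      rfl
  · intro m hm hzm
    change T m = m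
    apply ext2
    intro u v
    refine tendsto_nhds_unique (T2 m u v) ?_
    refine tendsto_const_nhds.congr' ?_
    have h6 : ∀ᶠ F : Finset H in 𝒰, {u, v} ⊆ F :=
      h𝒰 (eventually_ge_atTop ({u, v} : Finset H))
    filter_upwards [h6] with F hF
    have hu : u ∈ F := hF (by simp)
    have hv : v ∈ F := hF (by simp)
    rw [E3 F m hm]
    have hpz : ∀ ξ ∈ F, p F ξ = z ξ := by
      intro ξ hξ
      have h7 : p F * z = p F := by
        rw [← hz.2.2 (p F) (hpM F), hzp]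
      rw [← h7, ContinuousLinearMap.mul_apply, hpF F ξ hξ]
    have hmz : m * z = m := by
      rw [← hz.2.2 m hm, hzm]
    rw [ContinuousLinearMap.mul_apply, ContinuousLinearMap.mul_apply, hpz v hv,
      ← (hpPr F).1, ContinuousLinearMap.star_eq_adjoint, ContinuousLinearMap.adjoint_inner_right,
      hpz u hu, ← ContinuousLinearMap.mul_apply, hmz]
    nth_rewrite 1 [← hzs]
    rw [ContinuousLinearMap.star_eq_adjoint, ContinuousLinearMap.adjoint_inner_left,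
      ← ContinuousLinearMap.mul_apply, hzm]

end H68R2.BP
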