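import Mathlib
import Pool.Agent.H68R2.BP.Props2
import Pool.Agent.H495R2.KZ.WLim
import Pool.Agent.H57R2.BP.KDec

/-!
BP project (helper68), task K_op: decomposition of operators (limit of compressions).
-/

open scoped ComplexOrder InnerProductSpace ComplexConjugate Topology
open Finset Filter

noncomputable section

namespace H68R2.BP

open H759R2.Kad H744R2.KZ

namespace KopAux

open Matrix

variable {H : Type} [NormedAddCommGroup H] [InnerProductSpace ℂ H] [CompleteSpace H]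
  {κ : Type} (b : HilbertBasis κ ℂ H) (F : Finset κ)

/-- the coordinates -/
def co (v : H) : F → ℂ := fun q => ⟪b q, v⟫_ℂ

/-- the operator of a matrix -/
def op (A : Matrix F F ℂ) : H →L[ℂ] H :=
  ∑ p : F, ∑ q : F, A p q • (innerSL ℂ (b q)).smulRight (b p)

theorem op_apply (A : Matrix F F ℂ) (v : H) :
    op b F A v = ∑ p : F, (A *ᵥ co b F v) p • b p := by
  unfold op
  rw [ContinuousLinearMap.sum_apply]
  refine Finset.sum_congr rfl fun p _ => ?_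
  rw [ContinuousLinearMap.sum_apply]
  simp only [ContinuousLinearMap.smul_apply, ContinuousLinearMap.smulRight_apply, innerSL_apply_apply,
    Matrix.mulVec, dotProduct, Finset.sum_smul, co, smul_smul]

theorem op_inner (A : Matrix F F ℂ) (u v : H) :
    ⟪u, op b F A v⟫_ℂ = star (co b F u) ⬝ᵥ (A *ᵥ co b F v) := by
  rw [op_apply, inner_sum]
  unfold dotProduct
  refine Finset.sum_congr rfl fun p _ => ?_
  rw [inner_smul_right, mul_comm]
  congr 1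
  simp only [co, Pi.star_apply]
  rw [← inner_conj_symm]
  rfl

theorem op_add (A B : Matrix F F ℂ) : op b F (A + B) = op b F A + op b F B := by
  ext v
  refine ext_inner_left ℂ fun u => ?_
  rw [ContinuousLinearMap.add_apply, inner_add_right, op_inner, op_inner, op_inner,
    Matrix.add_mulVec, dotProduct_add]

theorem op_star (A : Matrix F F ℂ) : star (op b F A) = op b F Aᴴ := by
  ext v
  refine ext_inner_left ℂ fun u => ?_
  rw [ContinuousLinearMap.star_eq_adjoint, ContinuousLinearMap.adjoint_inner_right,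
    ← inner_conj_symm, op_inner, op_inner]
  have h1 : conj (star (co b F v) ⬝ᵥ A *ᵥ co b F u) = star (star (co b F v) ⬝ᵥ A *ᵥ co b F u) :=
    rfl
  rw [h1, ← Matrix.star_dotProduct, Matrix.star_mulVec, ← Matrix.dotProduct_mulVec]

theorem op_norm (A : Matrix F F ℂ) (v : H) :
    ((‖op b F A v‖ ^ 2 : ℝ) : ℂ) = star (co b F v) ⬝ᵥ ((Aᴴ * A) *ᵥ co b F v) := by
  have ho : Orthonormal ℂ (fun p : F => b p) := b.orthonormal.comp _ Subtype.val_injective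
  have h1 : ((‖op b F A v‖ ^ 2 : ℝ) : ℂ) = ⟪op b F A v, op b F A v⟫_ℂ := by
    rw [inner_self_eq_norm_sq_to_K]
    push_cast
    rfl
  rw [h1, op_apply, ho.inner_sum]
  rw [← Matrix.mulVec_mulVec, Matrix.dotProduct_mulVec, ← Matrix.star_mulVec]
  rfl

theorem co_norm (v : H) : ((∑ q : F, ‖⟪b q, v⟫_ℂ‖ ^ 2 : ℝ) : ℂ) = star (co b F v) ⬝ᵥ co b F v := by
  unfold dotProduct
  push_cast
  refine Finset.sum_congr rfl fun q _ => ?_
  simp only [co, Pi.star_apply]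
  rw [RCLike.star_def, RCLike.conj_mul]
  rfl

theorem bessel (v : H) : ∑ q : F, ‖⟪b q, v⟫_ℂ‖ ^ 2 ≤ ‖v‖ ^ 2 := by
  have ho : Orthonormal ℂ (fun p : F => b p) := b.orthonormal.comp _ Subtype.val_injective
  exact ho.sum_inner_products_le v

theorem op_bound [DecidableEq κ] {ι : Type} [Fintype ι] (A : ι → Matrix F F ℂ) (C : ℝ) (hC : 0 ≤ C)
    (h : (((C : ℂ) • (1 : Matrix F F ℂ)) - ∑ i, (A i)ᴴ * A i).PosSemidef) (v : H) :
    ∑ i, ‖op b F (A i) v‖ ^ 2 ≤ C * ‖v‖ ^ 2 := by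
  have h1 := h.dotProduct_mulVec_nonneg (co b F v)
  have h2 : star (co b F v) ⬝ᵥ ((((C : ℂ) • (1 : Matrix F F ℂ)) - ∑ i, (A i)ᴴ * A i) *ᵥ co b F v) =
      ((C * ∑ q : F, ‖⟪b q, v⟫_ℂ‖ ^ 2 - ∑ i, ‖op b F (A i) v‖ ^ 2 : ℝ) : ℂ) := by
    rw [Matrix.sub_mulVec, dotProduct_sub, Matrix.smul_mulVec, Matrix.one_mulVec, dotProduct_smul,
      ← co_norm, Matrix.sum_mulVec, dotProduct_sum]
    rw [Complex.ofReal_sub, Complex.ofReal_mul, Complex.ofReal_sum]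
    simp only [← op_norm, smul_eq_mul, Complex.ofReal_sum]
  rw [h2] at h1
  have h3 : 0 ≤ C * ∑ q : F, ‖⟪b q, v⟫_ℂ‖ ^ 2 - ∑ i, ‖op b F (A i) v‖ ^ 2 := by
    exact_mod_cast h1
  have h4 := mul_le_mul_of_nonneg_left (bessel b F v) hC
  linarith

/-- the projection -/
def pr (v : H) : H := ∑ q ∈ F, ⟪b q, v⟫_ℂ • b q

theorem pr_tendsto (v : H) : Tendsto (fun F => pr b F v) atTop (𝓝 v) := by
  have h := b.hasSum_repr v
  simp only [HilbertBasis.repr_apply_apply] at h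
  exact h

theorem op_x (x : H →L[ℂ] H) (u v : H) :
    ⟪u, op b F (Matrix.of fun p q : F => ⟪b p, x (b q)⟫_ℂ) v⟫_ℂ = ⟪pr b F u, x (pr b F v)⟫_ℂ := by
  rw [op_inner]
  unfold pr
  rw [← Finset.sum_coe_sort F, ← Finset.sum_coe_sort F, map_sum, sum_inner]
  unfold dotProduct Matrix.mulVec
  refine Finset.sum_congr rfl fun p _ => ?_
  rw [inner_smul_left, inner_sum]
  unfold dotProduct
  simp only [Matrix.of_apply, co, Pi.star_apply, map_smul, inner_smul_right]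
  congr 1
  refine Finset.sum_congr rfl fun q _ => ?_
  ring

/-- lower semicontinuity -/
theorem lsc {T ι : Type} [Fintype ι] (𝒰 : Ultrafilter T) (A : T → ι → (H →L[ℂ] H))
    (a : ι → (H →L[ℂ] H)) (C : ℝ) (v : H)
    (hA : ∀ t, ∑ i, ‖A t i v‖ ^ 2 ≤ C * ‖v‖ ^ 2)
    (hl : ∀ i (u : H), Tendsto (fun t => ⟪u, A t i v⟫_ℂ) 𝒰 (𝓝 ⟪u, a i v⟫_ℂ)) :
    ∑ i, ‖a i v‖ ^ 2 ≤ C * ‖v‖ ^ 2 := by
  have h1 : Tendsto (fun t => ∑ i, 2 * (⟪a i v, A t i v⟫_ℂ).re) 𝒰
      (𝓝 (∑ i, 2 * (⟪a i v, a i v⟫_ℂ).re)) := by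
    refine tendsto_finset_sum _ fun i _ => ?_
    exact ((Complex.continuous_re.tendsto _).comp (hl i (a i v))).const_mul 2
  have h2 : ∀ t, ∑ i, 2 * (⟪a i v, A t i v⟫_ℂ).re ≤ ∑ i, ‖a i v‖ ^ 2 + C * ‖v‖ ^ 2 := by
    intro t
    have h3 : ∀ i, 2 * (⟪a i v, A t i v⟫_ℂ).re ≤ ‖a i v‖ ^ 2 + ‖A t i v‖ ^ 2 := by
      intro i
      have h4 : (⟪a i v, A t i v⟫_ℂ).re ≤ ‖a i v‖ * ‖A t i v‖ :=
        (Complex.re_le_norm _).trans (norm_inner_le_norm _ _)
      nlinarith [sq_nonneg (‖a i v‖ - ‖A t i v‖)]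
    calc ∑ i, 2 * (⟪a i v, A t i v⟫_ℂ).re ≤ ∑ i, (‖a i v‖ ^ 2 + ‖A t i v‖ ^ 2) :=
          Finset.sum_le_sum fun i _ => h3 i
      _ = ∑ i, ‖a i v‖ ^ 2 + ∑ i, ‖A t i v‖ ^ 2 := Finset.sum_add_distrib
      _ ≤ _ := by linarith [hA t]
  have h3 := le_of_tendsto h1 (Eventually.of_forall h2)
  have h4 : ∑ i, 2 * (⟪a i v, a i v⟫_ℂ).re = 2 * ∑ i, ‖a i v‖ ^ 2 := by
    rw [Finset.mul_sum]
    refine Finset.sum_congr rfl fun i _ => ?_
    rw [inner_self_eq_norm_sq_to_K]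
    norm_cast
  rw [h4] at h3
  linarith

end KopAux

open KopAux in
theorem prove_K_op (h1 : K_fd) (h2 : K_mat) : K_op := by
  classical
  intro H _ _ _ S κ _ _ _ b l r th hrep ι _ x μ s hT hs
  have hμ : 0 ≤ μ := (norm_nonneg _).trans hT
  have hsμ : 0 ≤ s * μ := by positivity
  have hμs : 0 ≤ μ / s := by positivity
  choose A B hX hA hB using fun F : Finset κ => h1 F ι
    (fun i => Matrix.of fun p q : F => ⟪b p, x i (b q)⟫_ℂ) μ s hμ hs (by
      intro A B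
      refine (h2 H S κ b l r th hrep ι x F A B).trans ?_
      gcongr)
  let 𝒰 : Ultrafilter (Finset κ) := Ultrafilter.of atTop
  have h𝒰 : (𝒰 : Filter (Finset κ)) ≤ atTop := Ultrafilter.of_le _
  have hAb : ∀ F v, ∑ i, ‖op b F (A F i) v‖ ^ 2 ≤ s * μ * ‖v‖ ^ 2 := fun F v =>
    op_bound b F (A F) (s * μ) hsμ (hA F) v
  have hBb : ∀ F v, ∑ i, ‖star (op b F (B F i)) v‖ ^ 2 ≤ μ / s * ‖v‖ ^ 2 := by
    intro F v
    simp only [op_star]
    refine op_bound b F (fun i => (B F i).conjTranspose) (μ / s) hμs ?_ v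
    simpa using hB F
  have hnorm : ∀ (C : ℝ) (T : ι → (H →L[ℂ] H)), 0 ≤ C → (∀ v, ∑ i, ‖T i v‖ ^ 2 ≤ C * ‖v‖ ^ 2) →
      ∀ i, ‖T i‖ ≤ √C := by
    intro C T hC hT i
    refine ContinuousLinearMap.opNorm_le_bound _ (Real.sqrt_nonneg _) fun v => ?_
    have h3 : ‖T i v‖ ^ 2 ≤ C * ‖v‖ ^ 2 :=
      (Finset.single_le_sum (f := fun i => ‖T i v‖ ^ 2) (fun _ _ => by positivity)
        (Finset.mem_univ i)).trans (hT v)
    refine le_of_sq_le_sq ?_ (by positivity)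
    rw [mul_pow, Real.sq_sqrt hC]
    exact h3
  have hA1 : ∀ i, ∃ S : H →L[ℂ] H, ‖S‖ ≤ √(s * μ) ∧ ∀ u v : H,
      Tendsto (fun F => ⟪u, op b F (A F i) v⟫_ℂ) 𝒰 (𝓝 ⟪u, S v⟫_ℂ) := fun i =>
    prove_W_lim.{0} H (Finset κ) 𝒰 (fun F => op b F (A F i)) _
      (fun F => hnorm _ _ hsμ (hAb F) i)
  have hB1 : ∀ i, ∃ S : H →L[ℂ] H, ‖S‖ ≤ √(μ / s) ∧ ∀ u v : H,
      Tendsto (fun F => ⟪u, op b F (B F i) v⟫_ℂ) 𝒰 (𝓝 ⟪u, S v⟫_ℂ) := fun i =>
    prove_W_lim.{0} H (Finset κ) 𝒰 (fun F => op b F (B F i)) _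
      (fun F => by
        rw [← norm_star]
        exact hnorm _ _ hμs (hBb F) i)
  choose a ha1 ha2 using hA1
  choose c hc1 hc2 using hB1
  refine ⟨a, c, ?_, ?_, ?_⟩
  · intro i
    ext v
    refine ext_inner_left ℂ fun u => ?_
    have h3 : Tendsto (fun F => ⟪pr b F u, x i (pr b F v)⟫_ℂ) 𝒰 (𝓝 ⟪u, x i v⟫_ℂ) := by
      refine Tendsto.mono_left ?_ h𝒰
      exact (pr_tendsto b u).inner (((x i).continuous.tendsto v).comp (pr_tendsto b v))
    have h4 := (ha2 i u v).add (hc2 i u v)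
    rw [ContinuousLinearMap.add_apply, inner_add_right]
    refine tendsto_nhds_unique h3 ?_
    refine h4.congr fun F => ?_
    rw [← op_x, ← inner_add_right, ← ContinuousLinearMap.add_apply, ← op_add, hX F i]
  · refine KDecAux.colN_le _ _ hsμ fun v => ?_
    exact lsc 𝒰 (fun F i => op b F (A F i)) a _ v (fun F => hAb F v) (fun i u => ha2 i u v)
  · rw [KDecAux.rowN_eq]
    refine KDecAux.colN_le _ _ hμs fun v => ?_
    refine lsc 𝒰 (fun F i => star (op b F (B F i))) (fun i => star (c i)) _ v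
      (fun F => hBb F v) (fun i u => ?_)
    have h3 := (Complex.continuous_conj.tendsto _).comp (hc2 i v u)
    have h4 : ∀ T : H →L[ℂ] H, ⟪u, star T v⟫_ℂ = conj ⟪v, T u⟫_ℂ := by
      intro T
      rw [ContinuousLinearMap.star_eq_adjoint, ContinuousLinearMap.adjoint_inner_right,
        inner_conj_symm]
    simp only [h4]
    exact h3

end H68R2.BP
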