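import Mathlib
import Pool.Agent.H68R2.BP.Props2
import Pool.Agent.H57R2.BP.KDec

open scoped ComplexOrder InnerProductSpace ComplexConjugate Topology
open Finset Filter

noncomputable section

namespace H68R2.BP

open H759R2.Kad H744R2.KZ

namespace SoneAux

open KDecAux

section cs

variable {L : Type} [NormedAddCommGroup L] [InnerProductSpace ℂ L] [CompleteSpace L]

/-- row-column Cauchy-Schwarz -/
theorem rc_cs {ι : Type} [Fintype ι] (A B : ι → (L →L[ℂ] L)) (a b : ℝ) (ha : 0 ≤ a) (hb : 0 ≤ b)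
    (hA : rowN A ≤ a ^ 2) (hB : colN B ≤ b ^ 2) : ‖∑ i, A i * B i‖ ≤ a * b := by
  refine ContinuousLinearMap.opNorm_le_bound _ (by positivity) fun v => ?_
  set T := ∑ i, A i * B i with hT
  by_cases h0 : ‖T v‖ = 0
  · rw [h0]; positivity
  have hpos : 0 < ‖T v‖ := lt_of_le_of_ne (norm_nonneg _) (Ne.symm h0)
  have h1 : ‖T v‖ ^ 2 = ‖⟪T v, T v⟫_ℂ‖ := by
    rw [inner_self_eq_norm_sq_to_K]
    simp
  have h2' : ∀ w : L, ⟪w, T v⟫_ℂ = ∑ i, ⟪star (A i) w, B i v⟫_ℂ := by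
    intro w
    rw [hT, ContinuousLinearMap.sum_apply, inner_sum]
    refine Finset.sum_congr rfl fun i _ => ?_
    rw [ContinuousLinearMap.mul_apply, ContinuousLinearMap.star_eq_adjoint,
      ContinuousLinearMap.adjoint_inner_left]
  have h2 : ⟪T v, T v⟫_ℂ = ∑ i, ⟪star (A i) (T v), B i v⟫_ℂ := h2' (T v)
  have h3 : ‖⟪T v, T v⟫_ℂ‖ ≤ ∑ i, ‖star (A i) (T v)‖ * ‖B i v‖ := by
    rw [h2]
    exact (norm_sum_le _ _).trans (Finset.sum_le_sum fun i _ => norm_inner_le_norm _ _)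
  have h4 : (∑ i, ‖star (A i) (T v)‖ * ‖B i v‖) ^ 2 ≤
      (∑ i, ‖star (A i) (T v)‖ ^ 2) * ∑ i, ‖B i v‖ ^ 2 :=
    Finset.sum_mul_sq_le_sq_mul_sq _ _ _
  have h5 : ∑ i, ‖star (A i) (T v)‖ ^ 2 ≤ a ^ 2 * ‖T v‖ ^ 2 := by
    refine (colN_apply (fun i => star (A i)) (T v)).trans ?_
    rw [← rowN_eq]
    exact mul_le_mul_of_nonneg_right hA (by positivity)
  have h6 : ∑ i, ‖B i v‖ ^ 2 ≤ b ^ 2 * ‖v‖ ^ 2 :=
    (colN_apply B v).trans (mul_le_mul_of_nonneg_right hB (by positivity))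
  have h7 : (‖T v‖ ^ 2) ^ 2 ≤ (‖T v‖ * (a * b * ‖v‖)) ^ 2 := by
    calc (‖T v‖ ^ 2) ^ 2 ≤ (∑ i, ‖star (A i) (T v)‖ * ‖B i v‖) ^ 2 := by
          rw [h1]; exact pow_le_pow_left₀ (norm_nonneg _) h3 2
      _ ≤ _ := h4
      _ ≤ (a ^ 2 * ‖T v‖ ^ 2) * (b ^ 2 * ‖v‖ ^ 2) :=
        mul_le_mul h5 h6 (Finset.sum_nonneg fun i _ => by positivity) (by positivity)
      _ = _ := by ring
  have h8 : ‖T v‖ ^ 2 ≤ ‖T v‖ * (a * b * ‖v‖) := by
    exact le_of_sq_le_sq h7 (by positivity)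
  have h9 : ‖T v‖ * ‖T v‖ ≤ ‖T v‖ * (a * b * ‖v‖) := by
    calc ‖T v‖ * ‖T v‖ = ‖T v‖ ^ 2 := by ring
      _ ≤ _ := h8
  exact le_of_mul_le_mul_left h9 hpos

/-- the geometric sum -/
theorem geo (j : ℕ) : ∀ N : ℕ, (N ≤ j + 1 →
      ∑ k ∈ Finset.range N, (if k ≤ j then (2:ℝ) ^ k / 2 ^ j else 2 ^ j / 2 ^ k) ≤ 2 ^ N / 2 ^ j) ∧
    (j + 1 ≤ N → ∑ k ∈ Finset.range N, (if k ≤ j then (2:ℝ) ^ k / 2 ^ j else 2 ^ j / 2 ^ k) ≤
      3 - 2 ^ j / 2 ^ (N - 1)) := by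
  intro N
  induction N with
  | zero =>
    refine ⟨fun _ => ?_, fun h => absurd h (by omega)⟩
    simp
  | succ N ih =>
    have key1 : N + 1 ≤ j + 1 → ∑ k ∈ Finset.range (N + 1),
        (if k ≤ j then (2:ℝ) ^ k / 2 ^ j else 2 ^ j / 2 ^ k) ≤ 2 ^ (N + 1) / 2 ^ j := by
      intro h
      rw [Finset.sum_range_succ, if_pos (by omega)]
      have := ih.1 (by omega)
      have e : (2:ℝ) ^ (N + 1) / 2 ^ j = 2 ^ N / 2 ^ j + 2 ^ N / 2 ^ j := by
        rw [pow_succ]; ring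
      rw [e]
      linarith
    refine ⟨key1, fun h => ?_⟩
    rcases Nat.eq_or_lt_of_le h with h' | h'
    · have hN : N = j := by omega
      have := key1 (by omega)
      refine this.trans ?_
      rw [hN]
      have e1 : (2:ℝ) ^ (j + 1) / 2 ^ j = 2 := by
        rw [pow_succ]; field_simp
      have e2 : (2:ℝ) ^ j / 2 ^ (j + 1 - 1) = 1 := by
        rw [Nat.add_sub_cancel]; field_simp
      rw [e1, e2]
      norm_num
    · rw [Finset.sum_range_succ, if_neg (by omega)]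
      have := ih.2 (by omega)
      have hN1 : 1 ≤ N := by omega
      have e : (2:ℝ) ^ j / 2 ^ (N - 1) = 2 * (2 ^ j / 2 ^ N) := by
        obtain ⟨m, rfl⟩ := Nat.exists_eq_add_of_le hN1
        rw [Nat.add_sub_cancel_left, pow_add, pow_one]
        field_simp
      rw [Nat.add_sub_cancel]
      rw [e] at this
      linarith

theorem geo' (j N : ℕ) :
    ∑ k ∈ Finset.range N, (if k ≤ j then (2:ℝ) ^ k / 2 ^ j else 2 ^ j / 2 ^ k) ≤ 3 := by
  rcases Nat.le_total N (j + 1) with h | h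
  · refine ((geo j N).1 h).trans ?_
    rw [div_le_iff₀ (by positivity)]
    have : (2:ℝ) ^ N ≤ 2 ^ (j + 1) := pow_le_pow_right₀ (by norm_num) h
    rw [pow_succ] at this
    have h2 : (0:ℝ) < 2 ^ j := by positivity
    linarith
  · refine ((geo j N).2 h).trans ?_
    have : (0:ℝ) ≤ 2 ^ j / 2 ^ (N - 1) := by positivity
    linarith

end cs

section corner

variable {H : Type} [NormedAddCommGroup H] [InnerProductSpace ℂ H] [CompleteSpace H]
variable {L : Type} [NormedAddCommGroup L] [InnerProductSpace ℂ L] [CompleteSpace L]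

theorem pr_norm {p : H →L[ℂ] H} (hp : IsPr p) (v : H) : ‖p v‖ ≤ ‖v‖ := by
  have h1 : ⟪p v, p v⟫_ℂ = ⟪v, p v⟫_ℂ := by
    have h2 : ⟪(ContinuousLinearMap.adjoint p) v, p v⟫_ℂ = ⟪v, p (p v)⟫_ℂ :=
      ContinuousLinearMap.adjoint_inner_left _ _ _
    rw [← ContinuousLinearMap.star_eq_adjoint, hp.1] at h2
    rw [h2, ← ContinuousLinearMap.mul_apply, hp.2]
  have h3 : ‖p v‖ ^ 2 ≤ ‖v‖ * ‖p v‖ := by
    have h4 : ‖p v‖ ^ 2 = ‖⟪p v, p v⟫_ℂ‖ := by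
      rw [inner_self_eq_norm_sq_to_K]; simp
    rw [h4, h1]
    exact norm_inner_le_norm _ _
  by_cases h0 : ‖p v‖ = 0
  · rw [h0]; exact norm_nonneg _
  have hpos : 0 < ‖p v‖ := lt_of_le_of_ne (norm_nonneg _) (Ne.symm h0)
  nlinarith

theorem colN_cut {p : H →L[ℂ] H} (hp : IsPr p) {ι : Type} [Fintype ι] (a : ι → (H →L[ℂ] H)) :
    colN (fun i => p * a i * p) ≤ colN a := by
  refine colN_le _ _ (norm_nonneg _) fun v => ?_
  calc ∑ i, ‖(p * a i * p) v‖ ^ 2 ≤ ∑ i, ‖a i (p v)‖ ^ 2 := by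
        refine Finset.sum_le_sum fun i _ => pow_le_pow_left₀ (norm_nonneg _) ?_ 2
        exact pr_norm hp _
    _ ≤ colN a * ‖p v‖ ^ 2 := colN_apply _ _
    _ ≤ colN a * ‖v‖ ^ 2 := by
        refine mul_le_mul_of_nonneg_left ?_ (norm_nonneg _)
        exact pow_le_pow_left₀ (norm_nonneg _) (pr_norm hp v) 2

theorem rowN_cut {p : H →L[ℂ] H} (hp : IsPr p) {ι : Type} [Fintype ι] (a : ι → (H →L[ℂ] H)) :
    rowN (fun i => p * a i * p) ≤ rowN a := by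
  rw [rowN_eq, rowN_eq]
  have e : (fun i => star (p * a i * p)) = fun i => p * star (a i) * p := by
    funext i
    rw [star_mul, star_mul, hp.1, mul_assoc]
  rw [e]
  exact colN_cut hp _

variable {M : VonNeumannAlgebra H} {p : H →L[ℂ] H}

theorem cnr_add {x y : H →L[ℂ] H} (hx : x ∈ Cnr M p) (hy : y ∈ Cnr M p) : x + y ∈ Cnr M p :=
  ⟨add_mem hx.1 hy.1, by rw [mul_add, hx.2.1, hy.2.1], by rw [add_mul, hx.2.2, hy.2.2]⟩

theorem cnr_zero : (0 : H →L[ℂ] H) ∈ Cnr M p := ⟨zero_mem _, by rw [mul_zero], by rw [zero_mul]⟩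

theorem cnr_sum {ι : Type} (s : Finset ι) (f : ι → (H →L[ℂ] H)) (h : ∀ i, f i ∈ Cnr M p) :
    ∑ i ∈ s, f i ∈ Cnr M p := by
  classical
  induction s using Finset.induction_on with
  | empty => rw [Finset.sum_empty]; exact cnr_zero
  | insert a s ha ih => rw [Finset.sum_insert ha]; exact cnr_add (h a) ih

theorem cnr_mul {x y : H →L[ℂ] H} (hx : x ∈ Cnr M p) (hy : y ∈ Cnr M p) : x * y ∈ Cnr M p :=
  ⟨mul_mem hx.1 hy.1, by rw [← mul_assoc, hx.2.1], by rw [mul_assoc, hy.2.2]⟩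

theorem cnr_star (hp : IsPr p) {x : H →L[ℂ] H} (hx : x ∈ Cnr M p) : star x ∈ Cnr M p := by
  refine ⟨star_mem hx.1, ?_, ?_⟩
  · have := congrArg star hx.2.2
    rw [star_mul, hp.1] at this
    exact this
  · have := congrArg star hx.2.1
    rw [star_mul, hp.1] at this
    exact this

theorem add_zero' {E F : Type} [AddGroup E] [AddGroup F] {f : E → F}
    (h : ∀ x y, f (x + y) = f x + f y) : f 0 = 0 := by
  have := h 0 0
  rw [add_zero] at this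
  exact (left_eq_add.1 this)

theorem map_sum' {E F : Type} [AddCommGroup E] [AddCommGroup F] {f : E → F}
    (h : ∀ x y, f (x + y) = f x + f y) {ι : Type} (s : Finset ι) (g : ι → E) :
    f (∑ i ∈ s, g i) = ∑ i ∈ s, f (g i) := by
  classical
  induction s using Finset.induction_on with
  | empty => rw [Finset.sum_empty, Finset.sum_empty]; exact add_zero' h
  | insert a s ha ih => rw [Finset.sum_insert ha, Finset.sum_insert ha, h, ih]

variable {l r : (H →L[ℂ] H) → (L →L[ℂ] L)}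

theorem rowN_l (hb : BiRep (Cnr M p) l r) (hp : IsPr p) {ι : Type} [Fintype ι]
    (y : ι → (H →L[ℂ] H)) (hy : ∀ i, y i ∈ Cnr M p) : rowN (fun i => l (y i)) ≤ rowN y := by
  unfold rowN
  have e : ∑ i, l (y i) * star (l (y i)) = l (∑ i, y i * star (y i)) := by
    rw [map_sum' hb.l_add]
    refine Finset.sum_congr rfl fun i _ => ?_
    rw [← hb.l_star _ (hy i), hb.l_mul _ (hy i) _ (cnr_star hp (hy i))]
  rw [e]
  exact hb.l_norm _ (cnr_sum _ _ fun i => cnr_mul (hy i) (cnr_star hp (hy i)))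

theorem colN_l (hb : BiRep (Cnr M p) l r) (hp : IsPr p) {ι : Type} [Fintype ι]
    (y : ι → (H →L[ℂ] H)) (hy : ∀ i, y i ∈ Cnr M p) : colN (fun i => l (y i)) ≤ colN y := by
  unfold colN
  have e : ∑ i, star (l (y i)) * l (y i) = l (∑ i, star (y i) * y i) := by
    rw [map_sum' hb.l_add]
    refine Finset.sum_congr rfl fun i _ => ?_
    rw [← hb.l_star _ (hy i), hb.l_mul _ (cnr_star hp (hy i)) _ (hy i)]
  rw [e]
  exact hb.l_norm _ (cnr_sum _ _ fun i => cnr_mul (cnr_star hp (hy i)) (hy i))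

theorem rowN_r (hb : BiRep (Cnr M p) l r) (hp : IsPr p) {ι : Type} [Fintype ι]
    (y : ι → (H →L[ℂ] H)) (hy : ∀ i, y i ∈ Cnr M p) : rowN (fun i => r (y i)) ≤ rowN y := by
  unfold rowN
  have e : ∑ i, r (y i) * star (r (y i)) = r (∑ i, y i * star (y i)) := by
    rw [map_sum' hb.r_add]
    refine Finset.sum_congr rfl fun i _ => ?_
    rw [← hb.r_star _ (hy i), hb.r_mul _ (hy i) _ (cnr_star hp (hy i))]
  rw [e]
  exact hb.r_norm _ (cnr_sum _ _ fun i => cnr_mul (hy i) (cnr_star hp (hy i)))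

theorem colN_r (hb : BiRep (Cnr M p) l r) (hp : IsPr p) {ι : Type} [Fintype ι]
    (y : ι → (H →L[ℂ] H)) (hy : ∀ i, y i ∈ Cnr M p) : colN (fun i => r (y i)) ≤ colN y := by
  unfold colN
  have e : ∑ i, star (r (y i)) * r (y i) = r (∑ i, star (y i) * y i) := by
    rw [map_sum' hb.r_add]
    refine Finset.sum_congr rfl fun i _ => ?_
    rw [← hb.r_star _ (hy i), hb.r_mul _ (cnr_star hp (hy i)) _ (hy i)]
  rw [e]
  exact hb.r_norm _ (cnr_sum _ _ fun i => cnr_mul (cnr_star hp (hy i)) (hy i))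

end corner

end SoneAux

open SoneAux KDecAux in
theorem prove_S_one (h1 : K_dec) : S_one := by
  intro H _ _ _ S κ _ _ _ b l₀ r₀ th hrep M z p hz hRC hpM hp hzp
  obtain ⟨C, hC0, hC⟩ := hRC
  refine ⟨108 * C, by positivity, ?_⟩
  intro L _ _ _ l r hb ι _ x hx μ W hT hμ hcx hrx
  obtain ⟨a, ha, hab⟩ := h1 H S κ b l₀ r₀ th hrep ι x μ W hT hμ hcx hrx
  obtain ⟨Q, hQ1, hQ2, hQ3⟩ := hC (1 / 4 ^ (2 * (W + 1))) (by positivity)
  -- the pieces
  set y : Fin (2 * W + 2) → ι → (H →L[ℂ] H) := fun j i => p * Q (a j i) * p with hy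
  have hyc : ∀ j i, y j i ∈ Cnr M p := fun j i => by
    refine ⟨mul_mem (mul_mem hpM (hQ1 _).1) hpM, ?_, ?_⟩
    · simp only [hy]
      rw [← mul_assoc, ← mul_assoc, hp.2]
    · simp only [hy]
      rw [mul_assoc, hp.2]
  have hxy : ∀ i, x i = ∑ j, y j i := fun i => by
    have h2 : z * x i = x i := by
      rw [← (hx i).2.1, ← mul_assoc, hzp]
    have h3 : Q (x i) = x i := hQ2 _ (hx i).1 h2
    have h4 : ∑ j, y j i = p * Q (∑ j, a j i) * p := by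
      rw [map_sum, Finset.mul_sum, Finset.sum_mul]
    rw [h4, ha, h3, (hx i).2.1, (hx i).2.2]
  have h2pos : ∀ n : ℕ, (0:ℝ) < 2 ^ n := fun n => by positivity
  have h4eq : ∀ m : ℕ, (4:ℝ) ^ m = (2 ^ m) ^ 2 := by
    intro m
    rw [← pow_mul, mul_comm m 2, pow_mul]; norm_num
  set K : ℝ := 18 * C * μ with hK
  have hK0 : 0 ≤ K := by positivity
  have hcol : ∀ j, colN (y j) ≤ K * (2 ^ (j : ℕ) / 2 ^ W) ^ 2 := fun j => by
    refine (colN_cut hp _).trans ?_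
    refine ((hQ3 ι (a j)).1).trans ?_
    have e1 := (hab j).1
    have e2 := (hab j).2
    rw [h4eq, h4eq] at e1 e2
    have e3 : (1:ℝ) / 4 ^ (2 * (W + 1)) * (9 * ((2 ^ W) ^ 2 / (2 ^ (j : ℕ)) ^ 2) * μ) ≤
        9 * ((2 ^ (j : ℕ)) ^ 2 / (2 ^ W) ^ 2) * μ := by
      have h5 : (1:ℝ) / 4 ^ (2 * (W + 1)) * ((2 ^ W) ^ 2 / (2 ^ (j : ℕ)) ^ 2) ≤
          (2 ^ (j : ℕ)) ^ 2 / (2 ^ W) ^ 2 := by
        rw [div_mul_div_comm, one_mul, div_le_div_iff₀ (by positivity) (by positivity)]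
        have h6 : ((2:ℝ) ^ W) ^ 2 * (2 ^ W) ^ 2 = 2 ^ (4 * W) := by ring
        have h7 : ((2:ℝ) ^ (j : ℕ)) ^ 2 * (4 ^ (2 * (W + 1)) * (2 ^ (j : ℕ)) ^ 2) =
            2 ^ (4 * W + 4 + 4 * (j : ℕ)) := by
          have : (4:ℝ) = 2 ^ 2 := by norm_num
          rw [this, ← pow_mul, ← pow_mul, ← pow_add, ← pow_add]
          congr 1
          ring
        rw [h6, h7]
        exact pow_le_pow_right₀ (by norm_num) (by omega)
      calc (1:ℝ) / 4 ^ (2 * (W + 1)) * (9 * ((2 ^ W) ^ 2 / (2 ^ (j : ℕ)) ^ 2) * μ) =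
            9 * μ * ((1:ℝ) / 4 ^ (2 * (W + 1)) * ((2 ^ W) ^ 2 / (2 ^ (j : ℕ)) ^ 2)) := by ring
        _ ≤ 9 * μ * ((2 ^ (j : ℕ)) ^ 2 / (2 ^ W) ^ 2) :=
            mul_le_mul_of_nonneg_left h5 (by positivity)
        _ = _ := by ring
    have e4 : (1:ℝ) / 4 ^ (2 * (W + 1)) * rowN (a j) ≤
        9 * ((2 ^ (j : ℕ)) ^ 2 / (2 ^ W) ^ 2) * μ :=
      (mul_le_mul_of_nonneg_left e2 (by positivity)).trans e3
    calc C * (colN (a j) + 1 / 4 ^ (2 * (W + 1)) * rowN (a j))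
        ≤ C * (9 * ((2 ^ (j : ℕ)) ^ 2 / (2 ^ W) ^ 2) * μ +
          9 * ((2 ^ (j : ℕ)) ^ 2 / (2 ^ W) ^ 2) * μ) :=
          mul_le_mul_of_nonneg_left (add_le_add e1 e4) hC0
      _ = K * (2 ^ (j : ℕ) / 2 ^ W) ^ 2 := by rw [hK, div_pow]; ring
  have hrow : ∀ j, rowN (y j) ≤ K * (2 ^ W / 2 ^ (j : ℕ)) ^ 2 := fun j => by
    refine (rowN_cut hp _).trans ?_
    refine ((hQ3 ι (a j)).2).trans ?_
    have e1 := (hab j).1
    have e2 := (hab j).2
    rw [h4eq, h4eq] at e1 e2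
    have hj : (j : ℕ) ≤ 2 * W + 1 := by omega
    have e3 : (1:ℝ) / 4 ^ (2 * (W + 1)) * (9 * ((2 ^ (j : ℕ)) ^ 2 / (2 ^ W) ^ 2) * μ) ≤
        9 * ((2 ^ W) ^ 2 / (2 ^ (j : ℕ)) ^ 2) * μ := by
      have h5 : (1:ℝ) / 4 ^ (2 * (W + 1)) * ((2 ^ (j : ℕ)) ^ 2 / (2 ^ W) ^ 2) ≤
          (2 ^ W) ^ 2 / (2 ^ (j : ℕ)) ^ 2 := by
        rw [div_mul_div_comm, one_mul, div_le_div_iff₀ (by positivity) (by positivity)]
        have h6 : ((2:ℝ) ^ (j : ℕ)) ^ 2 * (2 ^ (j : ℕ)) ^ 2 = 2 ^ (4 * (j : ℕ)) := by ring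
        have h7 : ((2:ℝ) ^ W) ^ 2 * (4 ^ (2 * (W + 1)) * (2 ^ W) ^ 2) = 2 ^ (8 * W + 4) := by
          have : (4:ℝ) = 2 ^ 2 := by norm_num
          rw [this, ← pow_mul, ← pow_mul, ← pow_add, ← pow_add]
          congr 1
          ring
        rw [h6, h7]
        exact pow_le_pow_right₀ (by norm_num) (by omega)
      calc (1:ℝ) / 4 ^ (2 * (W + 1)) * (9 * ((2 ^ (j : ℕ)) ^ 2 / (2 ^ W) ^ 2) * μ) =
            9 * μ * ((1:ℝ) / 4 ^ (2 * (W + 1)) * ((2 ^ (j : ℕ)) ^ 2 / (2 ^ W) ^ 2)) := by ring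
        _ ≤ 9 * μ * ((2 ^ W) ^ 2 / (2 ^ (j : ℕ)) ^ 2) :=
            mul_le_mul_of_nonneg_left h5 (by positivity)
        _ = _ := by ring
    have e4 : (1:ℝ) / 4 ^ (2 * (W + 1)) * colN (a j) ≤
        9 * ((2 ^ W) ^ 2 / (2 ^ (j : ℕ)) ^ 2) * μ :=
      (mul_le_mul_of_nonneg_left e1 (by positivity)).trans e3
    calc C * (rowN (a j) + 1 / 4 ^ (2 * (W + 1)) * colN (a j))
        ≤ C * (9 * ((2 ^ W) ^ 2 / (2 ^ (j : ℕ)) ^ 2) * μ +
          9 * ((2 ^ W) ^ 2 / (2 ^ (j : ℕ)) ^ 2) * μ) :=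
          mul_le_mul_of_nonneg_left (add_le_add e2 e4) hC0
      _ = K * (2 ^ W / 2 ^ (j : ℕ)) ^ 2 := by rw [hK, div_pow]; ring
  -- pairs
  have hpair : ∀ j j' : Fin (2 * W + 2), ‖∑ i, l (y j i) * r (y j' i)‖ ≤
      K * (if (j' : ℕ) ≤ j then (2:ℝ) ^ (j' : ℕ) / 2 ^ (j : ℕ) else 2 ^ (j : ℕ) / 2 ^ (j' : ℕ)) := by
    intro j j'
    have hs : √K ^ 2 = K := Real.sq_sqrt hK0
    split_ifs with hjj
    · have h5 := rc_cs (fun i => l (y j i)) (fun i => r (y j' i)) (√K * (2 ^ W / 2 ^ (j : ℕ)))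
        (√K * (2 ^ (j' : ℕ) / 2 ^ W)) (by positivity) (by positivity)
        (by rw [mul_pow, hs]; exact (rowN_l hb hp _ (hyc j)).trans (hrow j))
        (by rw [mul_pow, hs]; exact (colN_r hb hp _ (hyc j')).trans (hcol j'))
      refine h5.trans (le_of_eq ?_)
      have : √K * (2 ^ W / 2 ^ (j : ℕ)) * (√K * (2 ^ (j' : ℕ) / 2 ^ W)) =
          √K ^ 2 * (2 ^ (j' : ℕ) / 2 ^ (j : ℕ)) := by field_simp
      rw [this, hs]
    · have h5 := rc_cs (fun i => r (y j' i)) (fun i => l (y j i)) (√K * (2 ^ W / 2 ^ (j' : ℕ)))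
        (√K * (2 ^ (j : ℕ) / 2 ^ W)) (by positivity) (by positivity)
        (by rw [mul_pow, hs]; exact (rowN_r hb hp _ (hyc j')).trans (hrow j'))
        (by rw [mul_pow, hs]; exact (colN_l hb hp _ (hyc j)).trans (hcol j))
      have h6 : ∑ i, l (y j i) * r (y j' i) = ∑ i, r (y j' i) * l (y j i) :=
        Finset.sum_congr rfl fun i _ => hb.comm _ (hyc j i) _ (hyc j' i)
      rw [h6]
      refine h5.trans (le_of_eq ?_)
      have : √K * (2 ^ W / 2 ^ (j' : ℕ)) * (√K * (2 ^ (j : ℕ) / 2 ^ W)) =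
          √K ^ 2 * (2 ^ (j : ℕ) / 2 ^ (j' : ℕ)) := by field_simp
      rw [this, hs]
  have hTT : TT l r x = ∑ j, ∑ j', ∑ i, l (y j i) * r (y j' i) := by
    unfold TT
    have e : ∀ i, l (x i) * r (x i) = ∑ j, ∑ j', l (y j i) * r (y j' i) := fun i => by
      rw [hxy i, map_sum' hb.l_add, map_sum' hb.r_add, Finset.sum_mul]
      refine Finset.sum_congr rfl fun j _ => ?_
      rw [Finset.mul_sum]
    simp only [e]
    rw [Finset.sum_comm]
    refine Finset.sum_congr rfl fun j _ => ?_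
    rw [Finset.sum_comm]
  rw [hTT]
  calc ‖∑ j, ∑ j', ∑ i, l (y j i) * r (y j' i)‖ ≤ ∑ j, ∑ j', ‖∑ i, l (y j i) * r (y j' i)‖ := by
        refine (norm_sum_le _ _).trans (Finset.sum_le_sum fun j _ => norm_sum_le _ _)
    _ ≤ ∑ j : Fin (2 * W + 2), ∑ j' : Fin (2 * W + 2), K * (if (j' : ℕ) ≤ j then
          (2:ℝ) ^ (j' : ℕ) / 2 ^ (j : ℕ) else 2 ^ (j : ℕ) / 2 ^ (j' : ℕ)) :=
        Finset.sum_le_sum fun j _ => Finset.sum_le_sum fun j' _ => hpair j j'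
    _ ≤ ∑ j : Fin (2 * W + 2), K * 3 := by
        refine Finset.sum_le_sum fun j _ => ?_
        rw [← Finset.mul_sum]
        refine mul_le_mul_of_nonneg_left ?_ hK0
        rw [Fin.sum_univ_eq_sum_range (fun k => if k ≤ (j : ℕ) then
          (2:ℝ) ^ k / 2 ^ (j : ℕ) else 2 ^ (j : ℕ) / 2 ^ k) (2 * W + 2)]
        exact geo' _ _
    _ = 108 * C * (W + 1) * μ := by
        rw [Finset.sum_const, Finset.card_univ, Fintype.card_fin, nsmul_eq_mul, hK]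
        push_cast
        ring

end H68R2.BP
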