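import Mathlib
import Pool.Agent.H68R2.BP.Props2

/-!
BP project (helper68), task T_rs: the bounded operators of a closed real subspace
(Rieffel - van Daele).
-/

open scoped ComplexOrder InnerProductSpace ComplexConjugate Topology
open Finset Filter

noncomputable section

namespace H68R2.BP

open H759R2.Kad H744R2.KZ

namespace TrsAux

variable {H : Type} [NormedAddCommGroup H] [InnerProductSpace ℂ H]

/-! ### Real projections -/

theorem exists_proj [CompleteSpace H] (K : Set H) (hc : IsClosed K) (h0 : (0 : H) ∈ K)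
    (hadd : ∀ x ∈ K, ∀ y ∈ K, x + y ∈ K) (hsm : ∀ x ∈ K, ∀ r : ℝ, (r : ℂ) • x ∈ K) :
    ∃ P : H → H, (∀ x, P x ∈ K) ∧ ∀ x, ∀ y ∈ K, (⟪y, x - P x⟫_ℂ).re = 0 := by
  let _ : InnerProductSpace ℝ H := InnerProductSpace.complexToReal
  let L : Submodule ℝ H :=
    { carrier := K
      add_mem' := fun {x y} hx hy => hadd x hx y hy
      zero_mem' := h0
      smul_mem' := fun r x hx => hsm x hx r }
  have : CompleteSpace L := hc.completeSpace_coe
  refine ⟨fun x => L.starProjection x, fun x => L.starProjection_apply_mem x, fun x y hy => ?_⟩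
  have h1 := Submodule.starProjection_inner_eq_zero (K := L) x y hy
  rw [real_inner_comm] at h1
  exact h1

theorem re_symm (x y : H) : (⟪x, y⟫_ℂ).re = (⟪y, x⟫_ℂ).re := by
  rw [← inner_conj_symm, Complex.conj_re]

theorem re_self (x : H) : (⟪x, x⟫_ℂ).re = ‖x‖ ^ 2 := by
  rw [inner_self_eq_norm_sq_to_K]
  norm_cast

theorem re_I_right (x y : H) : (⟪x, Complex.I • y⟫_ℂ).re = -(⟪x, y⟫_ℂ).im := by
  rw [inner_smul_right, Complex.I_mul_re]

theorem re_I_left (x y : H) : (⟪Complex.I • x, y⟫_ℂ).re = (⟪x, y⟫_ℂ).im := by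
  rw [inner_smul_left]
  simp

theorem im_symm (x y : H) : (⟪x, y⟫_ℂ).im = -(⟪y, x⟫_ℂ).im := by
  rw [← inner_conj_symm, Complex.conj_im]

/-- A real subspace with its projection. -/
structure RS (K : Set H) (P : H → H) : Prop where
  add : ∀ x ∈ K, ∀ y ∈ K, x + y ∈ K
  sm : ∀ x ∈ K, ∀ r : ℝ, (r : ℂ) • x ∈ K
  mem : ∀ x, P x ∈ K
  orth : ∀ x, ∀ y ∈ K, (⟪y, x - P x⟫_ℂ).re = 0

namespace RS

variable {K : Set H} {P : H → H}

theorem sub_mem (h : RS K P) {x y : H} (hx : x ∈ K) (hy : y ∈ K) : x - y ∈ K := by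
  have h1 := h.add x hx _ (h.sm y hy (-1))
  have h2 : x + ((-1 : ℝ) : ℂ) • y = x - y := by
    push_cast
    rw [neg_one_smul, sub_eq_add_neg]
  rwa [h2] at h1

theorem uniq (h : RS K P) {x z : H} (hz : z ∈ K) (ho : ∀ y ∈ K, (⟪y, x - z⟫_ℂ).re = 0) :
    P x = z := by
  have hw : P x - z ∈ K := h.sub_mem (h.mem x) hz
  have h1 : (⟪P x - z, P x - z⟫_ℂ).re = 0 := by
    have h2 : P x - z = (x - z) - (x - P x) := by abel
    nth_rewrite 2 [h2]
    rw [inner_sub_right, Complex.sub_re, ho _ hw, h.orth _ _ hw, sub_zero]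
  rw [re_self] at h1
  have h3 : ‖P x - z‖ = 0 := by
    exact pow_eq_zero_iff (two_ne_zero) |>.mp h1
  exact sub_eq_zero.mp (norm_eq_zero.mp h3)

theorem P_add (h : RS K P) (x y : H) : P (x + y) = P x + P y := by
  refine h.uniq (h.add _ (h.mem x) _ (h.mem y)) fun w hw => ?_
  have h2 : x + y - (P x + P y) = (x - P x) + (y - P y) := by abel
  rw [h2, inner_add_right, Complex.add_re, h.orth _ _ hw, h.orth _ _ hw, add_zero]

theorem P_smul (h : RS K P) (r : ℝ) (x : H) : P ((r : ℂ) • x) = (r : ℂ) • P x := by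
  refine h.uniq (h.sm _ (h.mem x) r) fun w hw => ?_
  rw [← smul_sub, inner_smul_right, Complex.re_ofReal_mul, h.orth _ _ hw, mul_zero]

theorem P_neg (h : RS K P) (x : H) : P (-x) = -P x := by
  have h1 := h.P_smul (-1) x
  simpa using h1

theorem P_sub (h : RS K P) (x y : H) : P (x - y) = P x - P y := by
  rw [sub_eq_add_neg, h.P_add, h.P_neg, sub_eq_add_neg]

theorem P_of_mem (h : RS K P) {x : H} (hx : x ∈ K) : P x = x :=
  h.uniq hx fun w _ => by simp

theorem P_P (h : RS K P) (x : H) : P (P x) = P x := h.P_of_mem (h.mem x)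

theorem P_zero (h : RS K P) {x : H} (ho : ∀ y ∈ K, (⟪y, x⟫_ℂ).re = 0) : P x = 0 := by
  have h0 : (0 : H) ∈ K := by
    have := h.sm _ (h.mem 0) 0
    simpa using this
  exact h.uniq h0 fun y hy => by rw [sub_zero]; exact ho y hy

theorem sym1 (h : RS K P) (x y : H) : (⟪P x, y⟫_ℂ).re = (⟪P x, P y⟫_ℂ).re := by
  have h1 := h.orth y (P x) (h.mem x)
  rw [inner_sub_right, Complex.sub_re] at h1
  linarith

theorem sym (h : RS K P) (x y : H) : (⟪P x, y⟫_ℂ).re = (⟪x, P y⟫_ℂ).re := by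
  have h1 := h.sym1 x y
  have h2 := h.sym1 y x
  rw [re_symm x, h2, h1, re_symm]

theorem norm_sq (h : RS K P) (x : H) : (⟪P x, x⟫_ℂ).re = ‖P x‖ ^ 2 := by
  rw [h.sym1, re_self]

theorem norm_le (h : RS K P) (x : H) : ‖P x‖ ≤ ‖x‖ := by
  have h1 : ‖P x‖ ^ 2 ≤ ‖P x‖ * ‖x‖ := by
    rw [← h.norm_sq]
    exact (Complex.re_le_norm _).trans (norm_inner_le_norm _ _)
  by_contra hcon
  have h3 : 0 ≤ ‖x‖ := norm_nonneg _
  have h2 : ‖x‖ < ‖P x‖ := not_le.mp hcon
  nlinarith

theorem eq_of_norm (h : RS K P) {x : H} (hn : ‖x‖ ^ 2 ≤ ‖P x‖ ^ 2) : P x = x := by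
  have h1 : ‖x - P x‖ ^ 2 = ‖x‖ ^ 2 - ‖P x‖ ^ 2 := by
    rw [← re_self, inner_sub_left, inner_sub_right, inner_sub_right]
    simp only [Complex.sub_re]
    rw [re_self, re_self, h.norm_sq, re_symm x, h.norm_sq]
    ring
  have h2 : ‖x - P x‖ ^ 2 = 0 := le_antisymm (by linarith) (by positivity)
  have h3 : ‖x - P x‖ = 0 := pow_eq_zero_iff (two_ne_zero) |>.mp h2
  exact (sub_eq_zero.mp (norm_eq_zero.mp h3)).symm

end RS

/-- the projection onto `i K` -/
def QQ (P : H → H) (x : H) : H := -(Complex.I • P (Complex.I • x))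

namespace RS

variable {K : Set H} {P : H → H}

theorem Q_add (h : RS K P) (x y : H) : QQ P (x + y) = QQ P x + QQ P y := by
  unfold QQ
  rw [smul_add, h.P_add, smul_add, neg_add]

theorem Q_smul (h : RS K P) (r : ℝ) (x : H) : QQ P ((r : ℂ) • x) = (r : ℂ) • QQ P x := by
  unfold QQ
  rw [smul_comm, h.P_smul, smul_comm, smul_neg]

theorem Q_sub (h : RS K P) (x y : H) : QQ P (x - y) = QQ P x - QQ P y := by
  unfold QQ
  rw [smul_sub, h.P_sub, smul_sub, neg_sub]
  abel

theorem I_Q (x : H) : Complex.I • QQ P x = P (Complex.I • x) := by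
  unfold QQ
  rw [smul_neg, smul_smul, Complex.I_mul_I, neg_one_smul, neg_neg]

theorem Q_I (h : RS K P) (x : H) : QQ P (Complex.I • x) = Complex.I • P x := by
  unfold QQ
  rw [smul_smul, Complex.I_mul_I, neg_one_smul, h.P_neg, smul_neg, neg_neg]

theorem P_I (x : H) : P (Complex.I • x) = Complex.I • QQ P x := (I_Q x).symm

theorem Q_Q (h : RS K P) (x : H) : QQ P (QQ P x) = QQ P x := by
  have h1 : QQ P (QQ P x) = -(Complex.I • P (Complex.I • QQ P x)) := rfl
  rw [h1, I_Q, h.P_P]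
  rfl

theorem Q_sym (h : RS K P) (x y : H) : (⟪QQ P x, y⟫_ℂ).re = (⟪x, QQ P y⟫_ℂ).re := by
  unfold QQ
  rw [inner_neg_left, inner_neg_right, Complex.neg_re, Complex.neg_re, re_I_left, re_I_right,
    neg_neg]
  have h1 := h.sym (Complex.I • x) (Complex.I • y)
  rw [re_I_right, re_I_left] at h1
  linarith

theorem Q_norm_sq (h : RS K P) (x : H) : (⟪QQ P x, x⟫_ℂ).re = ‖QQ P x‖ ^ 2 := by
  rw [← re_self, h.Q_sym, h.Q_sym, h.Q_Q]

theorem Q_norm (x : H) : ‖QQ P x‖ = ‖P (Complex.I • x)‖ := by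
  unfold QQ
  rw [norm_neg, norm_smul, Complex.norm_I, one_mul]

theorem Q_norm_le (h : RS K P) (x : H) : ‖QQ P x‖ ≤ ‖x‖ := by
  rw [Q_norm]
  refine (h.norm_le _).trans ?_
  rw [norm_smul, Complex.norm_I, one_mul]

end RS

/-- a complex linear map from a real linear one -/
theorem lin_of (f : H → H) (ha : ∀ x y, f (x + y) = f x + f y)
    (hr : ∀ (r : ℝ) x, f ((r : ℂ) • x) = (r : ℂ) • f x)
    (hI : ∀ x, f (Complex.I • x) = Complex.I • f x) (c : ℂ) (x : H) : f (c • x) = c • f x := by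
  have h1 : c • x = (c.re : ℂ) • x + (c.im : ℂ) • (Complex.I • x) := by
    rw [smul_smul, ← add_smul, Complex.re_add_im]
  rw [h1, ha, hr, hr, hI, smul_smul, ← add_smul, Complex.re_add_im]

theorem conj_of (f : H → H) (ha : ∀ x y, f (x + y) = f x + f y)
    (hr : ∀ (r : ℝ) x, f ((r : ℂ) • x) = (r : ℂ) • f x)
    (hI : ∀ x, f (Complex.I • x) = -(Complex.I • f x)) (c : ℂ) (x : H) :
    f (c • x) = conj c • f x := by
  have h1 : c • x = (c.re : ℂ) • x + (c.im : ℂ) • (Complex.I • x) := by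
    rw [smul_smul, ← add_smul, Complex.re_add_im]
  rw [h1, ha, hr, hr, hI, smul_neg, smul_smul, ← neg_smul, ← add_smul]
  congr 1
  apply Complex.ext <;> simp

/-! ### The square root -/

section sqrt

variable [CompleteSpace H]

theorem approx (X : H →L[ℂ] H) (hX : IsSelfAdjoint X) (ε : ℝ) (hε : 0 < ε) :
    ∃ p : Polynomial ℝ, ‖cfc Real.sqrt X - Polynomial.aeval X p‖ ≤ ε := by
  obtain ⟨M, hM⟩ : ∃ M : ℝ, ∀ t ∈ spectrum ℝ X, t ∈ Set.Icc (-M) M := by
    refine ⟨‖X‖ * ‖(1 : H →L[ℂ] H)‖, fun t ht => ?_⟩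
    have h1 := spectrum.subset_closedBall_norm_mul X ht
    rw [mem_closedBall_zero_iff, Real.norm_eq_abs] at h1
    exact abs_le.mp h1
  obtain ⟨p, hp⟩ := exists_polynomial_near_of_continuousOn (-M) M Real.sqrt
    Real.continuous_sqrt.continuousOn ε hε
  refine ⟨p, ?_⟩
  rw [← cfc_polynomial p X hX, ← cfc_sub Real.sqrt p.eval X
    (Real.continuous_sqrt.continuousOn) (p.continuous.continuousOn)]
  refine norm_cfc_le hε.le fun t ht => ?_
  rw [Real.norm_eq_abs, abs_sub_comm]
  exact (hp t (hM t ht)).le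

theorem poly_comm (X : H →L[ℂ] H) (B : H → H) (ha : ∀ x y, B (x + y) = B x + B y)
    (hr : ∀ (r : ℝ) x, B ((r : ℂ) • x) = (r : ℂ) • B x) (hB : ∀ x, B (X x) = X (B x))
    (p : Polynomial ℝ) : ∀ x, B (Polynomial.aeval X p x) = Polynomial.aeval X p (B x) := by
  induction p using Polynomial.induction_on' with
  | add p q hp hq =>
    intro x
    rw [map_add, ContinuousLinearMap.add_apply, ha, hp, hq, ContinuousLinearMap.add_apply]
  | monomial n a =>
    intro x
    rw [Polynomial.aeval_monomial]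
    have h1 : ∀ y, (algebraMap ℝ (H →L[ℂ] H) a * X ^ n) y = (a : ℂ) • (X ^ n) y := by
      intro y
      rw [ContinuousLinearMap.mul_apply, Algebra.algebraMap_eq_smul_one]
      rfl
    rw [h1, h1, hr]
    congr 1
    clear h1
    induction n generalizing x with
    | zero => simp
    | succ n ih =>
      rw [pow_succ, ContinuousLinearMap.mul_apply, ih, hB, ContinuousLinearMap.mul_apply]

theorem sqrt_comm (X : H →L[ℂ] H) (hX : IsSelfAdjoint X) (B : H → H)
    (ha : ∀ x y, B (x + y) = B x + B y) (hr : ∀ (r : ℝ) x, B ((r : ℂ) • x) = (r : ℂ) • B x)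
    (C : ℝ) (hC : 0 ≤ C) (hn : ∀ x, ‖B x‖ ≤ C * ‖x‖) (hB : ∀ x, B (X x) = X (B x)) (x : H) :
    B (cfc Real.sqrt X x) = cfc Real.sqrt X (B x) := by
  have hneg : ∀ y, B (-y) = -B y := by
    intro y
    have := hr (-1) y
    simpa using this
  have h1 : ∀ ε : ℝ, 0 < ε →
      ‖B (cfc Real.sqrt X x) - cfc Real.sqrt X (B x)‖ ≤ ε * (2 * (C * ‖x‖)) := by
    intro ε hε
    obtain ⟨p, hp⟩ := approx X hX ε hε
    set T := cfc Real.sqrt X
    set S := Polynomial.aeval X p
    have h2 : B (T x) - T (B x) = B ((T - S) x) - (T - S) (B x) := by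
      rw [ContinuousLinearMap.sub_apply, ContinuousLinearMap.sub_apply, sub_eq_add_neg (T x), ha,
        hneg, poly_comm X B ha hr hB p x]
      abel
    rw [h2]
    have h3 : ‖B ((T - S) x)‖ ≤ C * (ε * ‖x‖) := by
      refine (hn _).trans (mul_le_mul_of_nonneg_left ?_ hC)
      exact ((T - S).le_opNorm x).trans (mul_le_mul_of_nonneg_right hp (norm_nonneg _))
    have h4 : ‖(T - S) (B x)‖ ≤ ε * (C * ‖x‖) := by
      refine ((T - S).le_opNorm _).trans ?_
      exact mul_le_mul hp (hn x) (norm_nonneg _) hε.le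
    calc ‖B ((T - S) x) - (T - S) (B x)‖ ≤ ‖B ((T - S) x)‖ + ‖(T - S) (B x)‖ := norm_sub_le _ _
      _ ≤ C * (ε * ‖x‖) + ε * (C * ‖x‖) := add_le_add h3 h4
      _ = _ := by ring
  have h5 : ‖B (cfc Real.sqrt X x) - cfc Real.sqrt X (B x)‖ ≤ 0 := by
    have h6 : Tendsto (fun ε : ℝ => ε * (2 * (C * ‖x‖))) (𝓝[>] 0) (𝓝 (0 * (2 * (C * ‖x‖)))) :=
      (tendsto_id.mono_left nhdsWithin_le_nhds).mul_const _
    rw [zero_mul] at h6
    exact ge_of_tendsto h6 (eventually_nhdsWithin_of_forall fun ε hε => h1 ε hε)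
  exact sub_eq_zero.mp (norm_le_zero_iff.mp h5)

/-- The abstract construction. -/
theorem construct (R : H →L[ℂ] H) (hsa : star R = R) (hpos : ∀ x, 0 ≤ (⟪R x, x⟫_ℂ).re)
    (hle : ∀ x, (⟪R x, x⟫_ℂ).re ≤ 2 * ‖x‖ ^ 2) (hinj : ∀ x, R x = 0 → x = 0)
    (hinj' : ∀ x, (2 : ℂ) • x - R x = 0 → x = 0) (A : H →ₛₗ[starRingEnd ℂ] H)
    (hAn : ∀ x, ‖A x‖ ≤ 2 * ‖x‖)
    (hAs : ∀ x y, (⟪A x, y⟫_ℂ).re = (⟪x, A y⟫_ℂ).re)
    (hAA : ∀ x, A (A x) = (2 : ℂ) • R x - R (R x))
    (hAR : ∀ x, A (R x) = (2 : ℂ) • A x - R (A x)) :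
    ∃ (T : H →L[ℂ] H) (J : H → H), ROp R T ∧ (∀ x y, J (x + y) = J x + J y) ∧
      (∀ (c : ℂ) x, J (c • x) = conj c • J x) ∧ (∀ x, J (J x) = x) ∧
      (∀ x y, ⟪J x, J y⟫_ℂ = ⟪y, x⟫_ℂ) ∧ (∀ x, J (T x) = T (J x)) ∧
      (∀ x, J (R x) = (2 : ℂ) • J x - R (J x)) ∧ ∀ x, J (T x) = A x := by
  set X : H →L[ℂ] H := R * ((2 : ℂ) • 1 - R) with hXdef
  have hXx : ∀ x, X x = (2 : ℂ) • R x - R (R x) := by
    intro x
    rw [hXdef, ContinuousLinearMap.mul_apply, ContinuousLinearMap.sub_apply,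
      ContinuousLinearMap.smul_apply, ContinuousLinearMap.one_apply, map_sub, map_smul]
  have hAX : ∀ x, A (A x) = X x := fun x => by rw [hAA, hXx]
  have hXsa : IsSelfAdjoint X := by
    change star X = X
    rw [hXdef, star_mul, star_sub, star_smul, star_one, hsa, sub_mul, mul_sub, smul_mul_assoc,
      mul_smul_comm, one_mul, mul_one]
    simp
  have hXpos : ∀ x, 0 ≤ (⟪X x, x⟫_ℂ).re := by
    intro x
    rw [← hAX, hAs, re_self]
    positivity
  have hX0 : 0 ≤ X := by
    rw [ContinuousLinearMap.nonneg_iff_isPositive, ContinuousLinearMap.isPositive_iff_complex]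
    intro x
    refine ⟨?_, ?_⟩
    · have h1 : conj (⟪X x, x⟫_ℂ) = ⟪X x, x⟫_ℂ := by
        rw [inner_conj_symm]
        conv_lhs => rw [← hXsa.star_eq, ContinuousLinearMap.star_eq_adjoint,
          ContinuousLinearMap.adjoint_inner_right]
      exact Complex.conj_eq_iff_re.mp h1
    · exact hXpos x
  set T : H →L[ℂ] H := cfc Real.sqrt X with hTdef
  have hspec : ∀ t ∈ spectrum ℝ X, 0 ≤ t := fun t ht => spectrum_nonneg_of_nonneg hX0 ht
  have hT0 : 0 ≤ T := cfc_nonneg fun t _ => Real.sqrt_nonneg t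
  have hTsa : star T = T := (IsSelfAdjoint.of_nonneg hT0).star_eq
  have hTT : T * T = X := by
    rw [hTdef, ← cfc_mul Real.sqrt Real.sqrt X Real.continuous_sqrt.continuousOn
      Real.continuous_sqrt.continuousOn]
    conv_rhs => rw [← cfc_id' ℝ X]
    refine cfc_congr fun t ht => ?_
    exact Real.mul_self_sqrt (hspec t ht)
  have hTTx : ∀ x, T (T x) = X x := fun x => by
    rw [← ContinuousLinearMap.mul_apply, hTT]
  have hTpos : ∀ x, 0 ≤ (⟪T x, x⟫_ℂ).re := by
    rw [ContinuousLinearMap.nonneg_iff_isPositive, ContinuousLinearMap.isPositive_iff_complex] at hT0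
    intro x
    exact (hT0 x).2
  have hAadd : ∀ x y, A (x + y) = A x + A y := fun x y => map_add A x y
  have hAr : ∀ (r : ℝ) x, A ((r : ℂ) • x) = (r : ℂ) • A x := by
    intro r x
    rw [LinearMap.map_smulₛₗ, Complex.conj_ofReal]
  have hAT : ∀ x, A (T x) = T (A x) := by
    intro x
    refine sqrt_comm X hXsa A hAadd hAr 2 (by norm_num) hAn (fun y => ?_) x
    rw [← hAX, ← hAX]
  have hRT : ∀ x, R (T x) = T (R x) := by
    intro x
    refine sqrt_comm X hXsa R (map_add R) (fun r y => map_smul R _ y) ‖R‖ (norm_nonneg _)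
      R.le_opNorm (fun y => ?_) x
    rw [hXx, hXx, map_sub, map_smul]
  have hTinj : ∀ x, T x = 0 → x = 0 := by
    intro x hx
    have h1 : X x = 0 := by rw [← hTTx, hx, map_zero]
    rw [hXx, ← map_smul, ← map_sub] at h1
    exact hinj' x (hinj _ h1)
  have hrop : ROp R T :=
    { R_sa := hsa
      R_pos := hpos
      R_le := hle
      R_inj := hinj
      R_inj' := hinj'
      T_sa := hTsa
      T_pos := hTpos
      T_sq := hTT
      TR := by
        ext x
        rw [ContinuousLinearMap.mul_apply, ContinuousLinearMap.mul_apply, hRT] }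
  have hdense : DenseRange (T : H →ₗ[ℂ] H) := by
    have h1 : (LinearMap.range (T : H →ₗ[ℂ] H))ᗮ = ⊥ := by
      rw [Submodule.eq_bot_iff]
      intro x hx
      rw [Submodule.mem_orthogonal] at hx
      apply hTinj
      refine ext_inner_left ℂ fun v => ?_
      rw [inner_zero_right, ← hTsa, ContinuousLinearMap.star_eq_adjoint,
        ContinuousLinearMap.adjoint_inner_right]
      exact hx _ ⟨v, rfl⟩
    rw [← Submodule.topologicalClosure_eq_top_iff] at h1
    exact (Submodule.dense_iff_topologicalClosure_eq_top).mpr h1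
  have hnorm : ∀ x, ‖A x‖ = ‖T x‖ := by
    intro x
    have h1 : ‖A x‖ ^ 2 = ‖T x‖ ^ 2 := by
      rw [← re_self, ← re_self, hAs, hAX, ← hTTx]
      rw [← hTsa, ContinuousLinearMap.star_eq_adjoint, ContinuousLinearMap.adjoint_inner_right,
        ← ContinuousLinearMap.star_eq_adjoint, hTsa]
    exact (sq_eq_sq₀ (norm_nonneg _) (norm_nonneg _)).mp h1
  set J : H →SL[starRingEnd ℂ] H := A.extendOfNorm (T : H →ₗ[ℂ] H) with hJdef
  have hJT : ∀ x, J (T x) = A x := by
    intro x
    exact LinearMap.extendOfNorm_eq hdense ⟨1, fun x => by rw [one_mul]; exact (hnorm x).le⟩ x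
  have hd : DenseRange (fun x => T x) := hdense
  have ind : ∀ (f g : H → H), Continuous f → Continuous g → (∀ x, f (T x) = g (T x)) →
      ∀ x, f x = g x := by
    intro f g hf hg h x
    exact hd.induction_on x (isClosed_eq hf hg) h
  have hJJ : ∀ x, J (J x) = x := by
    have h1 : ∀ x, J (J (T x)) = T x := by
      intro x
      rw [hJT]
      refine ind (fun x => J (A x)) (fun x => T x) ?_ T.continuous ?_ x
      · have : Continuous fun x => J (J (T x)) := J.continuous.comp (J.continuous.comp T.continuous)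
        simpa only [hJT] using this
      · intro x
        change J (A (T x)) = T (T x)
        rw [hAT, hJT, hAX, hTTx]
    exact ind (fun x => J (J x)) (fun x => x) (J.continuous.comp J.continuous) continuous_id h1
  have hJn : ∀ x, ‖J x‖ = ‖x‖ := by
    intro x
    exact hd.induction_on (p := fun x => ‖J x‖ = ‖x‖) x
      (isClosed_eq J.continuous.norm continuous_norm) fun y => by rw [hJT, hnorm]
  refine ⟨T, J, hrop, fun x y => map_add J x y, fun c x => ContinuousLinearMap.map_smulₛₗ J c x,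
    hJJ, ?_, ?_, ?_, hJT⟩
  · have h1 : ∀ x y, (⟪J x, J y⟫_ℂ).re = (⟪x, y⟫_ℂ).re := by
      intro x y
      have h2 := hJn (x + y)
      have h3 : ‖J x + J y‖ ^ 2 = ‖x + y‖ ^ 2 := by rw [← map_add, h2]
      rw [← re_self, ← re_self (x + y), inner_add_add_self, inner_add_add_self] at h3
      simp only [Complex.add_re, re_self, hJn] at h3
      rw [re_symm (J y), re_symm y] at h3
      linarith
    intro x y
    apply Complex.ext
    · rw [h1, re_symm]
    · have h2 := h1 x (Complex.I • y)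
      rw [ContinuousLinearMap.map_smulₛₗ J, Complex.conj_I, neg_smul, inner_neg_right,
        Complex.neg_re, re_I_right, re_I_right] at h2
      rw [im_symm y x]
      linarith
  · refine ind (fun x => J (T x)) (fun x => T (J x)) (J.continuous.comp T.continuous)
      (T.continuous.comp J.continuous) fun x => ?_
    change J (T (T x)) = T (J (T x))
    rw [hJT, hJT, hAT]
  · refine ind (fun x => J (R x)) (fun x => (2 : ℂ) • J x - R (J x))
      (J.continuous.comp R.continuous)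
      ((J.continuous.const_smul _).sub (R.continuous.comp J.continuous)) fun x => ?_
    change J (R (T x)) = (2 : ℂ) • J (T x) - R (J (T x))
    rw [hRT, hJT, hJT, hAR]

end sqrt

end TrsAux

open TrsAux in
theorem prove_T_rs : T_rs := by
  intro H _ _ _ K K' hc h0 hadd hsm hKi hKd hK'
  obtain ⟨P, hP1, hP2⟩ := exists_proj K hc h0 hadd hsm
  have h : RS K P := ⟨hadd, hsm, hP1, hP2⟩
  have hR1 : ∀ x, ‖P x + QQ P x‖ ≤ 2 * ‖x‖ := fun x =>
    (norm_add_le _ _).trans (by linarith [h.norm_le x, h.Q_norm_le x])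
  let R : H →L[ℂ] H := LinearMap.mkContinuous
    { toFun := fun x => P x + QQ P x
      map_add' := fun x y => by rw [h.P_add, h.Q_add]; abel
      map_smul' := lin_of (fun x => P x + QQ P x)
        (fun x y => by beta_reduce; rw [h.P_add, h.Q_add]; abel)
        (fun r x => by beta_reduce; rw [h.P_smul, h.Q_smul, smul_add])
        (fun x => by beta_reduce; rw [h.Q_I, RS.P_I (P := P), smul_add, add_comm]) } 2 hR1
  have hR : ∀ x, R x = P x + QQ P x := fun x => rfl
  let A : H →ₛₗ[starRingEnd ℂ] H :=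
    { toFun := fun x => P x - QQ P x
      map_add' := fun x y => by rw [h.P_add, h.Q_add]; abel
      map_smul' := conj_of (fun x => P x - QQ P x)
        (fun x y => by beta_reduce; rw [h.P_add, h.Q_add]; abel)
        (fun r x => by beta_reduce; rw [h.P_smul, h.Q_smul, smul_sub])
        (fun x => by beta_reduce; rw [h.Q_I, RS.P_I (P := P), smul_sub, neg_sub]) }
  have hA : ∀ x, A x = P x - QQ P x := fun x => rfl
  have hRpos : ∀ x, (⟪R x, x⟫_ℂ).re = ‖P x‖ ^ 2 + ‖QQ P x‖ ^ 2 := by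
    intro x
    rw [hR, inner_add_left, Complex.add_re, h.norm_sq, h.Q_norm_sq]
  have hPle : ∀ x, ‖P x‖ ^ 2 ≤ ‖x‖ ^ 2 := fun x =>
    pow_le_pow_left₀ (norm_nonneg _) (h.norm_le x) 2
  have hQle : ∀ x, ‖QQ P x‖ ^ 2 ≤ ‖x‖ ^ 2 := fun x =>
    pow_le_pow_left₀ (norm_nonneg _) (h.Q_norm_le x) 2
  have hsa : star R = R := by
    have h1 : ∀ x y, (⟪R x, y⟫_ℂ).re = (⟪x, R y⟫_ℂ).re := by
      intro x y
      rw [hR, hR, inner_add_left, inner_add_right, Complex.add_re, Complex.add_re, h.sym, h.Q_sym]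
    ext x
    refine ext_inner_left ℂ fun v => ?_
    rw [ContinuousLinearMap.star_eq_adjoint, ContinuousLinearMap.adjoint_inner_right]
    apply Complex.ext
    · exact h1 v x
    · have h2 := h1 v (Complex.I • x)
      rw [map_smul, re_I_right, re_I_right] at h2
      linarith
  obtain ⟨T, J, hrop, hJa, hJs, hJJ, hJi, hJT, hJR, hJTA⟩ := construct R hsa
    (fun x => by rw [hRpos]; positivity)
    (fun x => by rw [hRpos]; linarith [hPle x, hQle x])
    (fun x hx => by
      have h1 := hRpos x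
      rw [hx, inner_zero_left, Complex.zero_re] at h1
      have h2 : ‖P x‖ = 0 := by
        refine pow_eq_zero_iff (two_ne_zero) |>.mp (le_antisymm ?_ (by positivity))
        nlinarith [sq_nonneg ‖QQ P x‖]
      have h3 : ‖P (Complex.I • x)‖ = 0 := by
        rw [← RS.Q_norm]
        refine pow_eq_zero_iff (two_ne_zero) |>.mp (le_antisymm ?_ (by positivity))
        nlinarith [sq_nonneg ‖P x‖]
      rw [norm_eq_zero] at h2 h3
      refine hKd x fun y hy => ?_
      have h4 := h.orth x y hy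
      have h5 := h.orth (Complex.I • x) y hy
      rw [h2, sub_zero] at h4
      rw [h3, sub_zero, re_I_right] at h5
      exact Complex.ext h4 (by simpa using h5))
    (fun x hx => by
      have h1 := hRpos x
      rw [← sub_eq_zero.mp hx, inner_smul_left] at h1
      have h2 : (conj (2 : ℂ) * ⟪x, x⟫_ℂ).re = 2 * ‖x‖ ^ 2 := by
        rw [← re_self x]
        simp
      rw [h2] at h1
      have h3 : P x = x := h.eq_of_norm (by linarith [hPle x, hQle x])
      have h4 : P (Complex.I • x) = Complex.I • x := by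
        refine h.eq_of_norm ?_
        rw [← RS.Q_norm, norm_smul, Complex.norm_I, one_mul]
        linarith [hPle x, hQle x]
      refine hKi x ?_ ?_
      · rw [← h3]; exact h.mem x
      · rw [← h4]; exact h.mem _)
    A
    (fun x => (norm_sub_le _ _).trans (by linarith [h.norm_le x, h.Q_norm_le x]))
    (fun x y => by
      rw [hA, hA, inner_sub_left, inner_sub_right, Complex.sub_re, Complex.sub_re, h.sym, h.Q_sym])
    (fun x => by
      rw [hA, hA, hR, hR, h.P_sub, h.Q_sub, h.P_add, h.Q_add, h.P_P, h.Q_Q, two_smul]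
      abel)
    (fun x => by
      rw [hA, hA, hR, hR, h.P_sub, h.Q_sub, h.P_add, h.Q_add, h.P_P, h.Q_Q, two_smul]
      abel)
  have hQ0 : ∀ x ∈ K', P (Complex.I • x) = 0 := by
    intro x hx
    rw [hK'] at hx
    refine h.P_zero fun y hy => ?_
    rw [re_I_right, hx y hy, neg_zero]
  have hQ1 : ∀ x ∈ K', QQ P x = 0 := by
    intro x hx
    have h1 := hQ0 x hx
    unfold QQ
    rw [h1, smul_zero, neg_zero]
  refine ⟨R, T, J, ⟨hrop, hJa, hJs, hJJ, hJi, hJT, hJR, ?_, ?_, ?_, ?_⟩⟩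
  · intro x hx
    rw [hJTA, hR, hA, h.P_of_mem hx, two_smul]
    abel
  · intro x hx
    rw [hJTA, hR, hA, hQ1 x hx, add_zero, sub_zero]
  · intro x hx
    have h1 : (2 : ℂ) • x - R x = x - QQ P x := by
      rw [hR, h.P_of_mem hx, two_smul]
      abel
    rw [h1]
    constructor
    · rw [hK']
      intro y hy
      have h2 := h.orth (Complex.I • x) y hy
      rw [← RS.I_Q (P := P), ← smul_sub, re_I_right] at h2
      linarith
    · intro y hy
      rw [hK'] at hy
      have h2 := hy (P (Complex.I • x)) (h.mem _)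
      rw [sub_sub_cancel]
      unfold QQ
      rw [inner_neg_right, Complex.neg_re, re_I_right, neg_neg, im_symm, h2, neg_zero]
  · intro x hx
    have h1 : R x = P x := by rw [hR, hQ1 x hx, add_zero]
    rw [h1]
    exact ⟨h.mem x, fun y hy => h.orth x y hy⟩

end H68R2.BP
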